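import Pool.Agent.Lib.MP_2e793b_nt.Iface

/-!
# DIVAVG: divisors of `m q ^ 2 + h` on average
-/

set_option autoImplicit false

namespace Pool.Agent.Lib.MP_2e793b_nt.H61

open Finset

/-- Divisors up to the square root. -/
theorem card_div_le (n D : ℕ) (hn : 0 < n) (hD : n ≤ D ^ 2) :
    n.divisors.card ≤ 2 * ((Icc 1 D).filter (fun d => d ∣ n)).card := by
  have h1 : n.divisors.card = (n.divisors.filter (fun d => d ^ 2 ≤ n)).card +
      (n.divisors.filter (fun d => ¬ d ^ 2 ≤ n)).card :=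
    (card_filter_add_card_filter_not _).symm
  have h2 : (n.divisors.filter (fun d => d ^ 2 ≤ n)).card ≤
      ((Icc 1 D).filter (fun d => d ∣ n)).card := by
    apply card_le_card
    intro d hd
    rw [mem_filter, Nat.mem_divisors] at hd
    rw [mem_filter, mem_Icc]
    refine ⟨⟨Nat.pos_of_dvd_of_pos hd.1.1 hn, ?_⟩, hd.1.1⟩
    exact (Nat.pow_le_pow_iff_left two_ne_zero).mp (hd.2.trans hD)
  have h3 : (n.divisors.filter (fun d => ¬ d ^ 2 ≤ n)).card ≤
      ((Icc 1 D).filter (fun d => d ∣ n)).card := by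
    apply card_le_card_of_injOn (fun d => n / d)
    · intro d hd
      rw [mem_coe, mem_filter, Nat.mem_divisors] at hd
      rw [mem_coe, mem_filter, mem_Icc]
      obtain ⟨⟨⟨e, he⟩, -⟩, h4⟩ := hd
      have hd0 : 0 < d := Nat.pos_of_ne_zero fun h => by simp [h] at he; omega
      have he0 : 0 < e := Nat.pos_of_ne_zero fun h => by simp [h] at he; omega
      have hq : n / d = e := by rw [he]; exact Nat.mul_div_cancel_left e hd0
      simp only [hq]
      refine ⟨⟨he0, ?_⟩, ⟨d, by rw [he]; ring⟩⟩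
      have h5 : e < d := by
        by_contra hcon
        push Not at hcon h4
        have : d ^ 2 ≤ n := by rw [he, pow_two]; exact Nat.mul_le_mul_left _ hcon
        omega
      have h6 : e ^ 2 ≤ n := by
        rw [he, pow_two]; exact Nat.mul_le_mul_right _ h5.le
      exact (Nat.pow_le_pow_iff_left two_ne_zero).mp (h6.trans hD)
    · intro d hd d' hd' heq
      rw [mem_coe, mem_filter, Nat.mem_divisors] at hd hd'
      obtain ⟨⟨⟨e, he⟩, -⟩, -⟩ := hd
      obtain ⟨⟨⟨e', he'⟩, -⟩, -⟩ := hd'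
      have hd0 : 0 < d := Nat.pos_of_ne_zero fun h => by simp [h] at he; omega
      have hd0' : 0 < d' := Nat.pos_of_ne_zero fun h => by simp [h] at he'; omega
      have he0 : 0 < e := Nat.pos_of_ne_zero fun h => by simp [h] at he; omega
      have hq : n / d = e := by rw [he]; exact Nat.mul_div_cancel_left e hd0
      have hq' : n / d' = e' := by rw [he']; exact Nat.mul_div_cancel_left e' hd0'
      have heq' : e = e' := by rw [← hq, ← hq']; exact heq
      subst heq'
      exact Nat.eq_of_mul_eq_mul_right he0 (he.symm.trans he')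
  omega

/-- One modulus. -/
theorem card_mod (h1 : RootsStmt) (m h X d : ℕ) (hm : 1 ≤ m) (hh : 1 ≤ h) (hd : 1 ≤ d) :
    ((Icc 1 X).filter (fun q => d ∣ m * q ^ 2 + h)).card ≤
      (X / d + 1) * (4 * m * h * d.divisors.card) := by
  classical
  have hR := h1 m d (h : ℤ) hm hd (by exact_mod_cast (by omega : h ≠ 0))
  rw [Int.natAbs_natCast] at hR
  have h2 := card_le_mul_card_image (f := fun q : ℕ => q % d)
    ((Icc 1 X).filter (fun q => d ∣ m * q ^ 2 + h)) (X / d + 1) (by
      intro r hr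
      calc (((Icc 1 X).filter (fun q => d ∣ m * q ^ 2 + h)).filter (fun q => q % d = r)).card
          ≤ (range (X / d + 1)).card := by
            apply card_le_card_of_injOn (fun q => q / d)
            · intro q hq
              rw [mem_coe, mem_filter, mem_filter, mem_Icc] at hq
              rw [mem_coe, mem_range]
              exact Nat.lt_succ_of_le (Nat.div_le_div_right hq.1.1.2)
            · intro q hq q' hq' heq
              rw [mem_coe, mem_filter] at hq hq'
              have e1 := Nat.div_add_mod q d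
              have e2 := Nat.div_add_mod q' d
              have heq' : q / d = q' / d := heq
              rw [← e1, ← e2, hq.2, hq'.2, heq']
        _ = X / d + 1 := card_range _)
  refine h2.trans (Nat.mul_le_mul_left _ ((card_le_card ?_).trans hR))
  intro r hr
  rw [mem_image] at hr
  obtain ⟨q, hq, rfl⟩ := hr
  rw [mem_filter] at hq
  rw [mem_filter, mem_range]
  refine ⟨Nat.mod_lt _ hd, ?_⟩
  have h3 : (d : ℤ) ∣ (m : ℤ) * (q : ℤ) ^ 2 + h := by exact_mod_cast hq.2
  have h4 : (m : ℤ) * (q : ℤ) ^ 2 + h ≡ m * ((q % d : ℕ) : ℤ) ^ 2 + h [ZMOD d] := by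
    have h5 : (q : ℤ) ≡ ((q % d : ℕ) : ℤ) [ZMOD d] := by
      rw [Int.natCast_mod]
      exact (Int.mod_modEq _ _).symm
    exact ((h5.pow 2).mul_left _).add_right _
  exact (Int.ModEq.dvd_iff h4).mp h3

/-- The harmonic sum. -/
theorem harm (D : ℕ) : ∑ a ∈ Icc 1 D, (1 : ℝ) / a ≤ 1 + Real.log D := by
  have h := harmonic_le_one_add_log D
  refine le_trans (le_of_eq ?_) h
  rw [harmonic_eq_sum_Icc]
  push_cast
  simp

/-- The sum of `τ(d) / d`. -/
theorem sum_tau (D : ℕ) (hD : 1 ≤ D) :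
    ∑ d ∈ Icc 1 D, (d.divisors.card : ℝ) / d ≤ (1 + Real.log D) ^ 2 := by
  have h1 : ∀ d ∈ Icc 1 D, (d.divisors.card : ℝ) / d =
      ∑ a ∈ Icc 1 D, if a ∣ d then (1 : ℝ) / d else 0 := by
    intro d hd
    rw [mem_Icc] at hd
    have h2 : d.divisors = (Icc 1 D).filter (fun a => a ∣ d) := by
      ext a
      rw [Nat.mem_divisors, mem_filter, mem_Icc]
      constructor
      · rintro ⟨h3, -⟩
        exact ⟨⟨Nat.pos_of_dvd_of_pos h3 (by omega), (Nat.le_of_dvd (by omega) h3).trans hd.2⟩, h3⟩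
      · rintro ⟨-, h3⟩
        exact ⟨h3, by omega⟩
    rw [← sum_filter, sum_const, ← h2, nsmul_eq_mul]
    ring
  rw [sum_congr rfl h1, sum_comm]
  have h3 : ∀ a ∈ Icc 1 D, (∑ d ∈ Icc 1 D, if a ∣ d then (1 : ℝ) / d else 0) ≤
      1 / a * (1 + Real.log D) := by
    intro a ha
    rw [mem_Icc] at ha
    rw [← sum_filter]
    calc ∑ d ∈ (Icc 1 D).filter (fun d => a ∣ d), (1 : ℝ) / d
        ≤ ∑ d ∈ (Icc 1 D).image (fun b => a * b), (1 : ℝ) / d := by
          apply sum_le_sum_of_subset_of_nonneg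
          · intro d hd
            rw [mem_filter, mem_Icc] at hd
            obtain ⟨⟨hd1, hd2⟩, b, rfl⟩ := hd
            rw [mem_image]
            refine ⟨b, ?_, rfl⟩
            rw [mem_Icc]
            have hb : 0 < b := Nat.pos_of_ne_zero fun h => by simp [h] at hd1
            exact ⟨hb, (Nat.le_mul_of_pos_left b (by omega)).trans hd2⟩
          · intro d _ _
            positivity
      _ = ∑ b ∈ Icc 1 D, (1 : ℝ) / ((a * b : ℕ) : ℝ) := by
          rw [sum_image]
          intro b _ b' _ hbb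
          exact Nat.eq_of_mul_eq_mul_left (by omega : 0 < a) hbb
      _ = 1 / a * ∑ b ∈ Icc 1 D, (1 : ℝ) / b := by
          rw [mul_sum]
          refine sum_congr rfl fun b _ => ?_
          push_cast
          rw [one_div_mul_one_div]
      _ ≤ 1 / a * (1 + Real.log D) :=
          mul_le_mul_of_nonneg_left (harm D) (by positivity)
  refine (sum_le_sum h3).trans ?_
  rw [← sum_mul, pow_two]
  have hlog : 0 ≤ Real.log D := Real.log_nonneg (by exact_mod_cast hD)
  exact mul_le_mul_of_nonneg_right (harm D) (by linarith)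

/-- DIVAVG -/
theorem divavg (h1 : RootsStmt) : DivavgStmt := by
  intro m h X hm hh hX
  set D := m * X + h with hDdef
  have hD1 : 1 ≤ D := by omega
  have hlog : 0 ≤ Real.log D := Real.log_nonneg (by exact_mod_cast hD1)
  -- step 1
  have s1 : (∑ q ∈ Icc 1 X, (m * q ^ 2 + h).divisors.card) ≤
      2 * ∑ d ∈ Icc 1 D, ((Icc 1 X).filter (fun q => d ∣ m * q ^ 2 + h)).card := by
    have h2 : ∀ q ∈ Icc 1 X, (m * q ^ 2 + h).divisors.card ≤
        2 * ∑ d ∈ Icc 1 D, if d ∣ m * q ^ 2 + h then 1 else 0 := by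
      intro q hq
      rw [mem_Icc] at hq
      rw [← card_filter]
      apply card_div_le _ _ (by omega)
      have hq2 : q ^ 2 ≤ X ^ 2 := Nat.pow_le_pow_left hq.2 2
      have hm2 : m ≤ m ^ 2 := by nlinarith
      have hh2 : h ≤ h ^ 2 := by nlinarith
      calc m * q ^ 2 + h ≤ m ^ 2 * X ^ 2 + h ^ 2 :=
            Nat.add_le_add (Nat.mul_le_mul hm2 hq2) hh2
        _ ≤ D ^ 2 := by rw [hDdef]; nlinarith [Nat.zero_le (m * X * h)]
    refine (sum_le_sum h2).trans (le_of_eq ?_)
    rw [← mul_sum, sum_comm]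
    congr 1
    refine sum_congr rfl fun d _ => ?_
    rw [card_filter]
  have s2 : ((∑ q ∈ Icc 1 X, (m * q ^ 2 + h).divisors.card : ℕ) : ℝ) ≤
      2 * ∑ d ∈ Icc 1 D, (((Icc 1 X).filter (fun q => d ∣ m * q ^ 2 + h)).card : ℝ) := by
    exact_mod_cast s1
  have hsum1 := sum_tau D hD1
  have s3 : ∀ d ∈ Icc 1 D, (((Icc 1 X).filter (fun q => d ∣ m * q ^ 2 + h)).card : ℝ) ≤
      4 * m * h * (X + D) * ((d.divisors.card : ℝ) / d) := by
    intro d hd
    rw [mem_Icc] at hd
    have hd0 : (0 : ℝ) < d := by exact_mod_cast hd.1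
    have h2 : (((Icc 1 X).filter (fun q => d ∣ m * q ^ 2 + h)).card : ℝ) ≤
        ((X / d : ℕ) + 1 : ℝ) * (4 * m * h * d.divisors.card) := by
      exact_mod_cast card_mod h1 m h X d hm hh hd.1
    have h3 : ((X / d : ℕ) : ℝ) ≤ X / d := Nat.cast_div_le
    have h4 : (1 : ℝ) ≤ D / d := by
      rw [le_div_iff₀ hd0]
      have : (d : ℝ) ≤ D := by exact_mod_cast hd.2
      linarith
    calc (((Icc 1 X).filter (fun q => d ∣ m * q ^ 2 + h)).card : ℝ)
        ≤ ((X / d : ℕ) + 1 : ℝ) * (4 * m * h * d.divisors.card) := h2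
      _ ≤ ((X : ℝ) / d + D / d) * (4 * m * h * d.divisors.card) :=
          mul_le_mul_of_nonneg_right (by linarith) (by positivity)
      _ = 4 * m * h * (X + D) * ((d.divisors.card : ℝ) / d) := by ring
  have s4 : ∑ d ∈ Icc 1 D, (((Icc 1 X).filter (fun q => d ∣ m * q ^ 2 + h)).card : ℝ) ≤
      4 * m * h * (X + D) * (1 + Real.log D) ^ 2 := by
    refine (sum_le_sum s3).trans ?_
    rw [← mul_sum]
    exact mul_le_mul_of_nonneg_left hsum1 (by positivity)
  have hXD : (X : ℝ) + D ≤ 3 * m * h * X := by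
    have hmR : (1 : ℝ) ≤ m := by exact_mod_cast hm
    have hhR : (1 : ℝ) ≤ h := by exact_mod_cast hh
    have hXR : (1 : ℝ) ≤ X := by exact_mod_cast hX
    have hD' : (D : ℝ) = m * X + h := by rw [hDdef]; push_cast; ring
    rw [hD']
    have a1 : (X : ℝ) ≤ m * h * X := by
      have : (1 : ℝ) ≤ m * h := one_le_mul_of_one_le_of_one_le hmR hhR
      nlinarith
    have a2 : (m : ℝ) * X ≤ m * h * X := by
      have : (0 : ℝ) ≤ m * X * (h - 1) := by
        apply mul_nonneg (by positivity); linarith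
      nlinarith
    have a3 : (h : ℝ) ≤ m * h * X := by
      have h5 : (1 : ℝ) ≤ m * X := one_le_mul_of_one_le_of_one_le hmR hXR
      nlinarith
    linarith
  have hcast : (m : ℝ) * X + h = (D : ℝ) := by rw [hDdef]; push_cast; ring
  rw [hcast]
  calc ((∑ q ∈ Icc 1 X, (m * q ^ 2 + h).divisors.card : ℕ) : ℝ)
      ≤ 2 * (4 * m * h * (X + D) * (1 + Real.log D) ^ 2) := s2.trans (by linarith)
    _ ≤ 2 * (4 * m * h * (3 * m * h * X) * (1 + Real.log D) ^ 2) := by
        have h6 : 4 * m * h * ((X : ℝ) + D) ≤ 4 * m * h * (3 * m * h * X) :=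
          mul_le_mul_of_nonneg_left hXD (by positivity)
        have h7 := mul_le_mul_of_nonneg_right h6 (sq_nonneg (1 + Real.log D))
        linarith
    _ = 24 * (m : ℝ) ^ 2 * (h : ℝ) ^ 2 * X * (1 + Real.log D) ^ 2 := by ring

end Pool.Agent.Lib.MP_2e793b_nt.H61
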