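import Pool.Agent.Lib.MP_2e793b_nt.Iface
import Pool.Agent.Lib.MP_2e793b_nt.H06.Pap

/-!
# PAP: primes in the class `-1` modulo `4 T`
-/

set_option autoImplicit false

namespace Pool.Agent.Lib.MP_2e793b_nt.H61

open Finset
open scoped Classical

/-- PAP -/
theorem pap : PapStmt := by
  intro T hT
  have hcop : (4 * T - 1).Coprime (4 * T) := by
    have key : ∀ n : ℕ, n.Coprime (n + 1) := fun n => by simp
    have h2 := key (4 * T - 1)
    rwa [show 4 * T - 1 + 1 = 4 * T by omega] at h2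
  obtain ⟨c, hc, X₀, h⟩ := Pool.Agent.Mor.H06.pap (4 * T) (4 * T - 1) (by omega) hcop
  refine ⟨c, X₀, hc, fun X hX => (h X hX).trans ?_⟩
  have hsub : ((range X).filter fun p => p.Prime ∧ p ≡ 4 * T - 1 [MOD 4 * T]) ⊆
      (Icc 1 X).filter (fun p => p.Prime ∧ p % (4 * T) = 4 * T - 1) := by
    intro p hp
    rw [mem_filter, mem_range] at hp
    rw [mem_filter, mem_Icc]
    refine ⟨⟨hp.2.1.one_lt.le, hp.1.le⟩, hp.2.1, ?_⟩
    have h2 := hp.2.2
    unfold Nat.ModEq at h2
    rw [h2]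
    exact Nat.mod_eq_of_lt (by omega)
  exact_mod_cast card_le_card (by convert hsub)

end Pool.Agent.Lib.MP_2e793b_nt.H61
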